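import Pool.Agent.helper19.AR.Defs2

/-!
# AR project (MP_962e14_co), module EX, counting part
-/

namespace Pool.Agent.helper19.AR

theorem EX_core {α β : Type} [DecidableEq α] (V : Finset α) (C : Finset β) (p q : β → α)
    (s : ℕ) (hp : ∀ a ∈ C, p a ∈ V ∧ q a ∈ V ∧ p a ≠ q a) (f : α → α)
    (h2 : ∀ x ∈ V.image f, (V.filter fun v => f v = x).card ≤ s ∧
        (C.filter fun a => f (p a) = x ∧ f (q a) = x).card + 1 = (V.filter fun v => f v = x).card)
    (h3 : ∀ a ∈ C, ∀ b ∈ C, f (p a) ≠ f (q a) → s(f (p a), f (q a)) = s(f (p b), f (q b)) → a = b)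
    (h4 : ∀ a ∈ C, f (p a) ≠ f (q a) →
        s < (V.filter fun v => f v = f (p a)).card + (V.filter fun v => f v = f (q a)).card)
    (h5 : ∀ x x' y y' : α, 2 * (V.filter fun v => f v = x).card ≤ s →
        2 * (V.filter fun v => f v = x').card ≤ s → x ≠ x' → y ≠ y' → x ≠ y → x ≠ y' → x' ≠ y →
        x' ≠ y' → ¬ ((∃ a ∈ C, s(f (p a), f (q a)) = s(x, y)) ∧
          (∃ a ∈ C, s(f (p a), f (q a)) = s(x, y')) ∧ (∃ a ∈ C, s(f (p a), f (q a)) = s(x', y)) ∧
          (∃ a ∈ C, s(f (p a), f (q a)) = s(x', y')))) :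
    C.card * s ^ 2 ≤ V.card * s ^ 2 + 8 * V.card ^ 2 := by
  classical
  rcases C.eq_empty_or_nonempty with rfl | ⟨b0, hb0⟩
  · simp
  have : Nonempty β := ⟨b0⟩
  set P : α → ℕ := fun x => (V.filter fun v => f v = x).card with hP
  set I := V.image f with hI
  set inner := C.filter (fun a => f (p a) = f (q a)) with hinner
  set cross := C.filter (fun a => ¬ f (p a) = f (q a)) with hcross
  have hC : inner.card + cross.card = C.card := Finset.card_filter_add_card_filter_not _
  have hpI : ∀ a ∈ C, f (p a) ∈ I := fun a ha => Finset.mem_image_of_mem f (hp a ha).1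
  have hqI : ∀ a ∈ C, f (q a) ∈ I := fun a ha => Finset.mem_image_of_mem f (hp a ha).2.1
  -- inner edges
  have hin : inner.card + I.card = V.card := by
    have e1 : inner.card = ∑ x ∈ I, (inner.filter fun a => f (p a) = x).card :=
      Finset.card_eq_sum_card_fiberwise fun a ha => hpI a (Finset.mem_filter.mp ha).1
    have e2 : V.card = ∑ x ∈ I, P x := Finset.card_eq_sum_card_image f V
    rw [e1, e2, Finset.card_eq_sum_ones I, ← Finset.sum_add_distrib]
    refine Finset.sum_congr rfl fun x hx => ?_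
    change _ = (V.filter fun v => f v = x).card
    rw [← (h2 x hx).2]
    congr 2
    ext a
    simp only [hinner, Finset.mem_filter]
    constructor
    · rintro ⟨⟨h1, h2⟩, h3⟩
      exact ⟨h1, h3, h2 ▸ h3⟩
    · rintro ⟨h1, h2, h3⟩
      exact ⟨⟨h1, h2.trans h3.symm⟩, h2⟩
  -- big classes
  set Big := I.filter (fun x => s < 2 * P x) with hBig
  set Small := I.filter (fun x => ¬ s < 2 * P x) with hSmall
  have hb : Big.card * s ≤ 2 * V.card := by
    have e2 : V.card = ∑ x ∈ I, P x := Finset.card_eq_sum_card_image f V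
    calc Big.card * s = ∑ x ∈ Big, s := by rw [Finset.sum_const, smul_eq_mul]
      _ ≤ ∑ x ∈ Big, 2 * P x := Finset.sum_le_sum fun x hx => (Finset.mem_filter.mp hx).2.le
      _ ≤ ∑ x ∈ I, 2 * P x :=
        Finset.sum_le_sum_of_subset_of_nonneg (Finset.filter_subset _ _) fun _ _ _ => Nat.zero_le _
      _ = 2 * V.card := by rw [← Finset.mul_sum, ← e2]
  have hsI : Small.card ≤ I.card := Finset.card_le_card (Finset.filter_subset _ _)
  -- big-big
  set BB := cross.filter (fun a => f (p a) ∈ Big ∧ f (q a) ∈ Big) with hBB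
  set BS := cross.filter (fun a => ¬ (f (p a) ∈ Big ∧ f (q a) ∈ Big)) with hBS
  have hcr : BB.card + BS.card = cross.card := Finset.card_filter_add_card_filter_not _
  have hBBc : BB.card ≤ Big.card * Big.card := by
    rw [← Finset.card_product]
    refine Finset.card_le_card_of_injOn (fun a => (f (p a), f (q a))) ?_ ?_
    · intro a ha
      have := (Finset.mem_filter.mp ha).2
      exact Finset.mem_product.mpr this
    · intro a ha b hb' hab
      have ha' := Finset.mem_filter.mp (Finset.mem_filter.mp ha).1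
      have hb'' := Finset.mem_filter.mp (Finset.mem_filter.mp hb').1
      simp only [Prod.mk.injEq] at hab
      exact h3 a ha'.1 b hb''.1 ha'.2 (by rw [hab.1, hab.2])
  -- big-small
  set sm : β → α := fun a => if f (p a) ∈ Big then f (q a) else f (p a) with hsm
  set bg : β → α := fun a => if f (p a) ∈ Big then f (p a) else f (q a) with hbg
  have hsb : ∀ a, s(f (p a), f (q a)) = s(sm a, bg a) := by
    intro a
    simp only [hsm, hbg]
    split_ifs
    · exact Sym2.eq_swap
    · rfl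
  have hBSp : ∀ a ∈ BS, a ∈ C ∧ f (p a) ≠ f (q a) ∧ sm a ∈ Small ∧ bg a ∈ Big := by
    intro a ha
    obtain ⟨ha1, ha2⟩ := Finset.mem_filter.mp ha
    obtain ⟨ha3, ha4⟩ := Finset.mem_filter.mp ha1
    have h6 := h4 a ha3 ha4
    have hbb : ∀ x ∈ I, x ∉ Big → 2 * P x ≤ s := by
      intro x hx hx'
      by_contra hcon
      exact hx' (Finset.mem_filter.mpr ⟨hx, by omega⟩)
    have hss : ∀ x ∈ I, x ∉ Big → x ∈ Small := by
      intro x hx hx'
      exact Finset.mem_filter.mpr ⟨hx, fun h => hx' (Finset.mem_filter.mpr ⟨hx, h⟩)⟩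
    refine ⟨ha3, ha4, ?_, ?_⟩
    · simp only [hsm]
      split_ifs with h7
      · exact hss _ (hqI a ha3) fun h8 => ha2 ⟨h7, h8⟩
      · exact hss _ (hpI a ha3) h7
    · simp only [hbg]
      split_ifs with h7
      · exact h7
      · by_contra h8
        have e1 := hbb _ (hpI a ha3) h7
        have e2 := hbb _ (hqI a ha3) h8
        simp only [hP] at e1 e2
        omega
  have hsmall : ∀ x ∈ Small, 2 * P x ≤ s := fun x hx => not_lt.mp (Finset.mem_filter.mp hx).2
  have hne : ∀ x ∈ Small, ∀ y ∈ Big, x ≠ y := by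
    rintro x hx y hy rfl
    exact (Finset.mem_filter.mp hx).2 (Finset.mem_filter.mp hy).2
  set first : α → β := Function.invFunOn sm (BS : Set β) with hfirst
  have hf1 : ∀ a ∈ BS, first (sm a) ∈ BS := fun a ha =>
    Function.invFunOn_mem (s := (BS : Set β)) ⟨a, ha, rfl⟩
  have hf2 : ∀ a ∈ BS, sm (first (sm a)) = sm a := fun a ha =>
    Function.invFunOn_eq (s := (BS : Set β)) ⟨a, ha, rfl⟩
  set B1 := BS.filter (fun a => a = first (sm a)) with hB1
  set B2 := BS.filter (fun a => ¬ a = first (sm a)) with hB2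
  have hBSc : B1.card + B2.card = BS.card := Finset.card_filter_add_card_filter_not _
  have hB1c : B1.card ≤ Small.card := by
    refine Finset.card_le_card_of_injOn sm ?_ ?_
    · intro a ha
      exact (hBSp a (Finset.mem_filter.mp ha).1).2.2.1
    · intro a ha b hb' hab
      have ha' := (Finset.mem_filter.mp ha).2
      have hb'' := (Finset.mem_filter.mp hb').2
      rw [ha', hb'', hab]
  have hB2c : B2.card ≤ Big.card * Big.card := by
    rw [← Finset.card_product]
    refine Finset.card_le_card_of_injOn (fun a => (bg (first (sm a)), bg a)) ?_ ?_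
    · intro a ha
      have ha' := (Finset.mem_filter.mp ha).1
      exact Finset.mem_product.mpr ⟨(hBSp _ (hf1 a ha')).2.2.2, (hBSp a ha').2.2.2⟩
    · intro a ha b hb' hab
      obtain ⟨ha1, ha2⟩ := Finset.mem_filter.mp ha
      obtain ⟨hb1, hb2⟩ := Finset.mem_filter.mp hb'
      simp only [Prod.mk.injEq] at hab
      obtain ⟨ha3, ha4, ha5, ha6⟩ := hBSp a ha1
      obtain ⟨hb3, hb4, hb5, hb6⟩ := hBSp b hb1
      obtain ⟨hc3, hc4, hc5, hc6⟩ := hBSp _ (hf1 a ha1)
      obtain ⟨hd3, hd4, hd5, hd6⟩ := hBSp _ (hf1 b hb1)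
      by_cases hsab : sm a = sm b
      · exact h3 a ha3 b hb3 ha4 (by rw [hsb, hsb, hsab, hab.2])
      · exfalso
        have hyy : bg (first (sm a)) ≠ bg a := by
          intro h8
          refine ha2 (h3 a ha3 _ hc3 ha4 ?_)
          rw [hsb, hsb, hf2 a ha1, h8]
        refine h5 (sm a) (sm b) (bg (first (sm a))) (bg a) (hsmall _ ha5) (hsmall _ hb5) hsab hyy
          (hne _ ha5 _ hc6) (hne _ ha5 _ ha6) (hne _ hb5 _ hc6) (hne _ hb5 _ ha6) ⟨?_, ?_, ?_, ?_⟩
        · exact ⟨_, hc3, by rw [hsb, hf2 a ha1]⟩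
        · exact ⟨a, ha3, hsb a⟩
        · exact ⟨_, hd3, by rw [hsb, hf2 b hb1, ← hab.1]⟩
        · exact ⟨b, hb3, by rw [hsb, hab.2]⟩
  have hfin : C.card ≤ V.card + 2 * (Big.card * Big.card) := by omega
  have hsq : (Big.card * s) ^ 2 ≤ (2 * V.card) ^ 2 := Nat.pow_le_pow_left hb 2
  calc C.card * s ^ 2 ≤ (V.card + 2 * (Big.card * Big.card)) * s ^ 2 :=
        Nat.mul_le_mul_right _ hfin
    _ = V.card * s ^ 2 + 2 * (Big.card * s) ^ 2 := by ring
    _ ≤ V.card * s ^ 2 + 2 * (2 * V.card) ^ 2 := by gcongr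
    _ = V.card * s ^ 2 + 8 * V.card ^ 2 := by ring

end Pool.Agent.helper19.AR
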