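import Pool.Agent.helper46.AR.EXa
import Pool.Agent.helper9.AR.EXc

/-!
# AR project (MP_962e14_co), module EX: excess over a tree-like count is small
-/

namespace Pool.Agent.helper19.AR

/-- module EX -/
theorem EX {α β : Type} [DecidableEq α] (V : Finset α) (C : Finset β) (p q : β → α)
    (s : ℕ) (hs : 1 ≤ s) (hp : ∀ a ∈ C, p a ∈ V ∧ q a ∈ V ∧ p a ≠ q a)
    (h : ∀ A ⊆ V, A.Nonempty → A.card ≤ 3 * s →
      (C.filter fun a => p a ∈ A ∧ q a ∈ A).card < A.card) :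
    C.card * s ^ 2 ≤ V.card * s ^ 2 + 8 * V.card ^ 2 := by
  obtain ⟨f, _, h2, h3, h4, h5⟩ := EXa V C p q s hs hp h
  exact EX_core V C p q s hp f h2 h3 h4 h5

end Pool.Agent.helper19.AR
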