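import Pool.Agent.helper19.AR.Defs2

/-!
# AR project (MP_962e14_co), module PA: the perfected system
-/

namespace Pool.Agent.helper19.AR

theorem PA_mem {α : Type} (r : ℕ) (v : ℕ → ℕ → α) (j i : ℕ) (w : α) :
    w ∈ PN r v j i ↔ (∃ i', (i < i' ∧ i' < r) ∧ v j i' = w) ∨ (∃ i', i' < i + 1 ∧ v (j + 1) i' = w) := by
  unfold PN
  simp only [Finset.mem_union, Finset.mem_image, Finset.mem_Ioo, Finset.mem_range]

theorem PA_card {α β : Type} (r M : ℕ) (S : Sys α β) (v : ℕ → ℕ → α) (c : ℕ → ℕ → β)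
    (N : ℕ → ℕ → Finset α) (hL : Lay r M S v c N) (j i : ℕ) (hj : j < M) (hi : i < r) :
    (PN r v j i).card = r := by
  classical
  have h1 : ((Finset.Ioo i r).image (v j)).card = r - i - 1 := by
    rw [Finset.card_image_of_injOn, Nat.card_Ioo]
    intro a ha b hb hab
    simp only [Finset.coe_Ioo, Set.mem_Ioo] at ha hb
    exact (hL.v_inj j hj.le a ha.2 j hj.le b hb.2 hab).2
  have h2 : ((Finset.range (i + 1)).image (v (j + 1))).card = i + 1 := by
    rw [Finset.card_image_of_injOn, Finset.card_range]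
    intro a ha b hb hab
    simp only [Finset.coe_range, Set.mem_Iio] at ha hb
    exact (hL.v_inj (j + 1) hj a (by omega) (j + 1) hj b (by omega) hab).2
  have h3 : Disjoint ((Finset.Ioo i r).image (v j)) ((Finset.range (i + 1)).image (v (j + 1))) := by
    rw [Finset.disjoint_left]
    intro w hw hw'
    obtain ⟨a, ha, rfl⟩ := Finset.mem_image.mp hw
    obtain ⟨b, hb, hab⟩ := Finset.mem_image.mp hw'
    simp only [Finset.mem_Ioo, Finset.mem_range] at ha hb
    have := (hL.v_inj (j + 1) hj b (by omega) j hj.le a ha.2 hab).1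
    omega
  have h4 : PN r v j i = (Finset.Ioo i r).image (v j) ∪ (Finset.range (i + 1)).image (v (j + 1)) := by
    ext w
    rw [PA_mem]
    simp only [Finset.mem_union, Finset.mem_image, Finset.mem_Ioo, Finset.mem_range]
  rw [h4, Finset.card_union_of_disjoint h3, h1, h2]
  omega

/-- module PA -/
theorem PA {α β : Type} [DecidableEq α] [DecidableEq β] (r M p q : ℕ) (hr : 2 ≤ r)
    (hq : q ≤ M) (S : Sys α β) (v : ℕ → ℕ → α) (c : ℕ → ℕ → β) (N : ℕ → ℕ → Finset α)
    (hL : Lay r M S v c N) (hG : Good r S) :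
    ∃ S' : Sys α β, IsMod r p q S S' v c ∧ Good r S' ∧
      Lay r M S' v c (fun j i => if p ≤ j ∧ j < q then PN r v j i else N j i) := by
  classical
  let P : β → Prop := fun a => ∃ x : ℕ × ℕ, p ≤ x.1 ∧ x.1 < q ∧ x.2 < r ∧ a = c x.1 x.2
  let E' : β → Finset (Sym2 α) := fun a =>
    if h : P a then (PN r v h.choose.1 h.choose.2).image (fun w => s(v h.choose.1 h.choose.2, w))
    else S.E a
  have hne : ∀ a, ¬ P a → E' a = S.E a := fun a h => dif_neg h
  have hin : ∀ j, p ≤ j → j < q → ∀ i < r,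
      E' (c j i) = (PN r v j i).image (fun w => s(v j i, w)) := by
    intro j hpj hjq i hi
    have hP : P (c j i) := ⟨(j, i), hpj, hjq, hi, rfl⟩
    have h1 : E' (c j i) = (PN r v hP.choose.1 hP.choose.2).image
        (fun w => s(v hP.choose.1 hP.choose.2, w)) := dif_pos hP
    obtain ⟨h2, h3, h4, h5⟩ := hP.choose_spec
    have h6 := hL.c_inj j (by omega) i hi _ (lt_of_lt_of_le h3 hq) _ h4 h5
    rw [h1, ← h6.1, ← h6.2]
  have hmem : ∀ j, p ≤ j → j < q → ∀ i < r, ∀ e, e ∈ E' (c j i) ↔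
      ∃ w ∈ PN r v j i, e = s(v j i, w) := by
    intro j hpj hjq i hi e
    rw [hin j hpj hjq i hi, Finset.mem_image]
    exact exists_congr fun w => and_congr_right fun _ => eq_comm
  have hPne : ∀ j i, j < M → i < r → ¬ (p ≤ j ∧ j < q) → ¬ P (c j i) := by
    rintro j i hj hi hn ⟨x, h1, h2, h3, h4⟩
    have := hL.c_inj j hj i hi x.1 (by omega) x.2 h3 h4
    exact hn ⟨this.1 ▸ h1, this.1 ▸ h2⟩
  -- the vertices of PN
  have hPNV : ∀ j < M, ∀ i < r, ∀ w ∈ PN r v j i, w ∈ S.V ∧ w ≠ v j i := by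
    intro j hj i hi w hw
    rw [PA_mem] at hw
    rcases hw with ⟨i', ⟨h1, h2⟩, rfl⟩ | ⟨i', h1, rfl⟩
    · refine ⟨hL.v_mem j hj.le i' h2, fun h => ?_⟩
      have := (hL.v_inj j hj.le i' h2 j hj.le i hi h).2
      omega
    · refine ⟨hL.v_mem (j + 1) hj i' (by omega), fun h => ?_⟩
      have := (hL.v_inj (j + 1) hj i' (by omega) j hj.le i hi h).1
      omega
  refine ⟨⟨S.V, S.C, E'⟩, ⟨rfl, rfl, ?_, hmem⟩, ⟨hG.1, ?_⟩, ?_⟩
  · intro a ha
    refine hne a ?_
    rintro ⟨x, h1, h2, h3, h4⟩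
    exact ha x.1 h1 h2 x.2 h3 h4
  · intro a ha
    change (E' a).card = r ∧ ∀ e ∈ E' a, ¬ e.IsDiag ∧ ∀ x ∈ e, x ∈ S.V
    by_cases hPa : P a
    · obtain ⟨⟨j, i⟩, h1, h2, h3, rfl⟩ := hPa
      simp only at h1 h2 h3 ⊢
      constructor
      · rw [hin j h1 h2 i h3, Finset.card_image_of_injective, PA_card r M S v c N hL j i (by omega) h3]
        intro w w' hww'
        exact Sym2.congr_right.mp hww'
      · intro e he
        rw [hmem j h1 h2 i h3] at he
        obtain ⟨w, hw, rfl⟩ := he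
        obtain ⟨hw1, hw2⟩ := hPNV j (by omega) i h3 w hw
        refine ⟨?_, ?_⟩
        · rw [Sym2.mk_isDiag_iff]
          exact fun h => hw2 h.symm
        · intro x hx
          rw [Sym2.mem_iff] at hx
          rcases hx with rfl | rfl
          · exact hL.v_mem j (by omega) i h3
          · exact hw1
    · rw [hne a hPa]
      exact hG.2 a ha
  · refine ⟨hL.v_mem, hL.v_inj, hL.c_mem, hL.c_inj, ?_, ?_, ?_, ?_⟩
    · intro j hj i hi e
      change e ∈ E' (c j i) ↔ _
      by_cases hpq : p ≤ j ∧ j < q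
      · simp only [if_pos hpq]
        exact hmem j hpq.1 hpq.2 i hi e
      · simp only [if_neg hpq]
        rw [hne _ (hPne j i hj hi hpq)]
        exact hL.c_E j hj i hi e
    · intro j hj i hi
      by_cases hpq : p ≤ j ∧ j < q
      · simp only [if_pos hpq]
        exact PA_card r M S v c N hL j i hj hi
      · simp only [if_neg hpq]
        exact hL.N_card j hj i hi
    · intro j hj i hi w hw
      by_cases hpq : p ≤ j ∧ j < q
      · simp only [if_pos hpq] at hw
        rw [PA_mem] at hw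
        rcases hw with ⟨i', ⟨h1, h2⟩, rfl⟩ | ⟨i', h1, rfl⟩
        · exact Or.inl ⟨i', h2, h1, rfl⟩
        · exact Or.inr ⟨i', by omega, rfl⟩
      · simp only [if_neg hpq] at hw
        exact hL.N_sub j hj i hi w hw
    · intro a ha e he j hj1 hjM i hi hv
      change e ∈ E' a at he
      by_cases hPa : P a
      · obtain ⟨⟨j', i'⟩, h1, h2, h3, rfl⟩ := hPa
        exact ⟨j', lt_of_lt_of_le h2 hq, i', h3, rfl⟩
      · rw [hne a hPa] at he
        exact hL.clean a ha e he j hj1 hjM i hi hv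

end Pool.Agent.helper19.AR
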